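import Pool.Agent.Helper3.TP.St

/-!
# Project TP (MP_86d903_lc), module CLO3: relative strong closure
-/

set_option autoImplicit false

open Finset
open MP86d903 (Valid Lit inside mem_inside pt flip Clause Ineq clauseIneq vsF ngF)
open Helper80.SR (Exp Closed Cl Sm)
open Helper3.TL

namespace Helper69.TP

open Helper3.TP

theorem hClo3 : PClo3 := by
  intro ι V _ _ _ _ vs q D κ A X hE hAX hx
  classical
  obtain ⟨M₀, R₀, hExp, hq, hR₀, hA⟩ := hE.big
  set x := (X \ A).card with hxdef
  set 𝒰 := (univ : Finset (Finset V)).filter (fun Y => X ⊆ Y ∧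
    3 * Y.card + 4 * (inside vs X).card ≤ 3 * X.card + 4 * (inside vs Y).card ∧
    (Y \ A).card ≤ 9 * x) with h𝒰
  have hne : 𝒰.Nonempty := ⟨X, mem_filter.mpr ⟨mem_univ _, subset_refl _, le_refl _, by omega⟩⟩
  obtain ⟨Y, hY, hmax⟩ := exists_max_image 𝒰 card hne
  obtain ⟨-, hXY, hY2, hY3⟩ := mem_filter.mp hY
  refine ⟨Y, ?_, hXY, hY3⟩
  intro S hS hSq hc
  by_contra hcon
  rw [not_le] at hcon
  have hAY : A ⊆ Y := hAX.trans hXY
  set Y' := Y ∪ S.biUnion vs with hY'
  have hYY' : Y ⊆ Y' := subset_union_left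
  have h1 : Y'.card = (S.biUnion vs \ Y).card + Y.card := by
    rw [hY', union_comm, ← sdiff_union_self_eq_union, card_union_of_disjoint sdiff_disjoint]
  have hYA : (Y \ A).card + A.card = Y.card := card_sdiff_add_card_eq_card hAY
  have hY'A : (Y' \ A).card + A.card = Y'.card := card_sdiff_add_card_eq_card (hAY.trans hYY')
  have hXA : (X \ A).card + A.card = X.card := card_sdiff_add_card_eq_card hAX
  have h2 : (inside vs Y).card + S.card ≤ (inside vs Y').card := by
    have hdisj : Disjoint (inside vs Y) S := by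
      rw [Finset.disjoint_left]
      intro c hc1 hc2
      exact hc c hc2 (mem_inside.mp hc1)
    rw [← card_union_of_disjoint hdisj]
    refine card_le_card ?_
    intro c hc'
    rcases mem_union.mp hc' with h | h
    · exact mem_inside.mpr ((mem_inside.mp h).trans subset_union_left)
    · exact mem_inside.mpr ((subset_biUnion_of_mem vs h).trans subset_union_right)
  have h3 : 0 < (S.biUnion vs \ Y).card := by
    obtain ⟨c, hcS⟩ := hS
    rw [card_pos, sdiff_nonempty]
    intro h
    exact hc c hcS ((subset_biUnion_of_mem vs hcS).trans h)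
  -- the size of `S`
  have h4 : 3 * S.card ≤ 2 * (S.biUnion vs \ A).card :=
    hE.closed S hS hSq fun c hcS h => hc c hcS (h.trans hAY)
  have h5 : (S.biUnion vs \ A).card ≤ (S.biUnion vs \ Y).card + (Y \ A).card := by
    refine (card_le_card ?_).trans (card_union_le _ _)
    intro v hv
    obtain ⟨hv1, hv2⟩ := mem_sdiff.mp hv
    by_cases h : v ∈ Y
    · exact mem_union_right _ (mem_sdiff.mpr ⟨h, hv2⟩)
    · exact mem_union_left _ (mem_sdiff.mpr ⟨hv1, h⟩)
  have hκ : (Y' \ A).card ≤ κ := by omega
  -- the clauses inside `Y'`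
  have hin : 19 * (inside vs Y').card ≤ 10 * Y'.card :=
    Helper80.SR.card_inside_le hExp Y' (by omega)
  set S' := inside vs Y' \ inside vs A with hS'
  have hSc : S'.card + (inside vs A).card = (inside vs Y').card :=
    card_sdiff_add_card_eq_card (Helper80.SR.inside_mono (hAY.trans hYY'))
  have hXi : (inside vs A).card ≤ (inside vs X).card :=
    card_le_card (Helper80.SR.inside_mono hAX)
  have hS'ne : S'.Nonempty := by
    obtain ⟨c, hcS⟩ := hS
    refine ⟨c, mem_sdiff.mpr ⟨mem_inside.mpr ((subset_biUnion_of_mem vs hcS).trans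
      subset_union_right), fun h => hc c hcS ((mem_inside.mp h).trans hAY)⟩⟩
  have h6 : 3 * S'.card ≤ 2 * (S'.biUnion vs \ A).card :=
    hE.closed S' hS'ne (by omega) fun c hcS h => (mem_sdiff.mp hcS).2 (mem_inside.mpr h)
  have h7 : (S'.biUnion vs \ A).card ≤ (Y' \ A).card := by
    refine card_le_card (sdiff_subset_sdiff ?_ (subset_refl _))
    intro v hv
    obtain ⟨c, hcS, hvc⟩ := mem_biUnion.mp hv
    exact (mem_inside.mp (mem_sdiff.mp hcS).1) hvc
  have hmem : Y' ∈ 𝒰 := by
    rw [h𝒰, mem_filter]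
    refine ⟨mem_univ _, hXY.trans subset_union_left, by omega, by omega⟩
  have := hmax _ hmem
  omega

end Helper69.TP
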